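import Pool.Agent.Helper82.ME.M5ab
import Pool.Agent.Helper86.ME.Main1c

/-!
# ME-M5c: the splitting lengths `s`
-/

set_option autoImplicit false

namespace ME

open Encodable Set Filter Topology

namespace Pack

variable {a : Aut} {e : Set ℕ} {f : ℕ → Bool} (P : Pack a e f)

/-- ME-M5c -/
theorem s_tendsto (j : Bool) : Tendsto (P.s j) atTop atTop :=
  P.s_tendsto_of86 (fun _ _ hy => P.r_ne hy) j

theorem s_low (j : Bool) (l : Idx) (hl : l.2 ≠ none) : ER (gn (P.s j)) (jn e (P.Gm l)) :=
  P.s_low_of86 (fun _ _ hy => P.r_ne hy) j l hl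

end Pack

end ME
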