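import Pool.Agent.Helper89.ME.MainDefs
import Pool.Agent.Helper89.ME.CatAll
import Pool.Agent.Helper86.ME.Opp

/-!
# ME-M3a, M3b, M3c: explicit operators and pure computations for the main theorem
-/

set_option autoImplicit false

namespace ME

open Encodable Set Filter Topology

/-- ME-M3a: the relation `fd x y = n` is positive -/
theorem EP_fd {α : Type} [Primcodable α] {Φ Ψ : Set α → Set (ℕ × Bool)} (hΦ : IsOp Φ)
    (hΨ : IsOp Ψ) : EP (fun (X : Set α) (n : ℕ) =>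
      (∀ i ∈ List.range n, ∃ v, (i, v) ∈ Φ X ∧ (i, v) ∈ Ψ X) ∧
        ∃ v, (n, v) ∈ Φ X ∧ (n, !v) ∈ Ψ X) := by
  refine EP.and ?_ ?_
  · refine EP.ball (P := fun (X : Set α) (p : ℕ × ℕ) => ∃ v, (p.2, v) ∈ Φ X ∧ (p.2, v) ∈ Ψ X)
      ?_ (g := fun n => List.range n) Primrec.list_range
    have h : EP (fun (X : Set α) (q : (ℕ × ℕ) × Bool) =>
        (q.1.2, q.2) ∈ Φ X ∧ (q.1.2, q.2) ∈ Ψ X) :=
      EP.and (EP.subst hΦ ((Primrec.snd.comp Primrec.fst).pair Primrec.snd))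
        (EP.subst hΨ ((Primrec.snd.comp Primrec.fst).pair Primrec.snd))
    exact h.ex
  · have h : EP (fun (X : Set α) (q : ℕ × Bool) =>
        (q.1, q.2) ∈ Φ X ∧ (q.1, !q.2) ∈ Ψ X) :=
      EP.and (EP.subst hΦ (Primrec.fst.pair Primrec.snd))
        (EP.subst hΨ (Primrec.fst.pair (Primrec.not.comp Primrec.snd)))
    exact h.ex

theorem fd_iff86 {x y : ℕ → Bool} (h : x ≠ y) (n : ℕ) :
    ((∀ i < n, x i = y i) ∧ x n ≠ y n) ↔ n = fd x y := by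
  constructor
  · rintro ⟨h1, h2⟩
    rcases lt_trichotomy n (fd x y) with hlt | heq | hgt
    · exact absurd (PiNat.apply_eq_of_lt_firstDiff (E := fun _ => Bool) hlt) h2
    · exact heq
    · exact absurd (h1 _ hgt) (PiNat.apply_firstDiff_ne (E := fun _ => Bool) h)
  · rintro rfl
    exact ⟨fun i hi => PiNat.apply_eq_of_lt_firstDiff (E := fun _ => Bool) hi,
      PiNat.apply_firstDiff_ne (E := fun _ => Bool) h⟩

theorem fd_iff {x y : ℕ → Bool} (h : x ≠ y) (n : ℕ) :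
    ((∀ i ∈ List.range n, ∃ v, (i, v) ∈ gr x ∧ (i, v) ∈ gr y) ∧
        ∃ v, (n, v) ∈ gr x ∧ (n, !v) ∈ gr y) ↔ n = fd x y := by
  rw [← fd_iff86 h]
  have h1 : ∀ i, (∃ v, (i, v) ∈ gr x ∧ (i, v) ∈ gr y) ↔ x i = y i := by
    intro i
    constructor
    · rintro ⟨v, h1, h2⟩
      exact (show x i = v from h1).trans (show y i = v from h2).symm
    · intro h
      exact ⟨x i, rfl, h.symm⟩
  have h2 : ∀ i, (∃ v, (i, v) ∈ gr x ∧ (i, !v) ∈ gr y) ↔ x i ≠ y i := by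
    intro i
    constructor
    · rintro ⟨v, h1, h2⟩
      rw [show x i = v from h1, show y i = !v from h2]
      cases v <;> simp
    · intro h
      refine ⟨x i, rfl, ?_⟩
      change y i = !(x i)
      revert h
      cases x i <;> cases y i <;> simp
  rw [h2]
  constructor
  · rintro ⟨h3, h4⟩
    exact ⟨fun i hi => (h1 i).1 (h3 i (List.mem_range.2 hi)), h4⟩
  · rintro ⟨h3, h4⟩
    exact ⟨fun i hi => (h1 i).2 (h3 i (List.mem_range.1 hi)), h4⟩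

/-- comparing two splitting lengths -/
theorem cmp_op : ∃ Θ : Set (ℕ ⊕ (ℕ ⊕ ℕ)) → Set Bool, IsOp Θ ∧ ∀ x₁ x₂ y₁ y₂ : ℕ → Bool,
    x₁ ≠ y₁ → x₂ ≠ y₂ → Θ (sj (jn (rs x₁) (rs x₂)) (sj (rs y₁) (rs y₂))) =
      {decide (fd x₁ y₁ < fd x₂ y₂)} := by
  -- the four columns
  let A₁ : Set (ℕ ⊕ (ℕ ⊕ ℕ)) → Set (ℕ × Bool) := fun Z =>
    {p | Sum.inl (encode (Sum.inl (encode p) : ℕ ⊕ ℕ)) ∈ Z}
  let A₂ : Set (ℕ ⊕ (ℕ ⊕ ℕ)) → Set (ℕ × Bool) := fun Z =>
    {p | Sum.inl (encode (Sum.inr (encode p) : ℕ ⊕ ℕ)) ∈ Z}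
  let B₁ : Set (ℕ ⊕ (ℕ ⊕ ℕ)) → Set (ℕ × Bool) := fun Z =>
    {p | Sum.inr (Sum.inl (encode p) : ℕ ⊕ ℕ) ∈ Z}
  let B₂ : Set (ℕ ⊕ (ℕ ⊕ ℕ)) → Set (ℕ × Bool) := fun Z =>
    {p | Sum.inr (Sum.inr (encode p) : ℕ ⊕ ℕ) ∈ Z}
  have hA₁ : IsOp A₁ := EP.mem (Primrec.sumInl.comp (Primrec.encode.comp
    (Primrec.sumInl.comp Primrec.encode)))
  have hA₂ : IsOp A₂ := EP.mem (Primrec.sumInl.comp (Primrec.encode.comp
    (Primrec.sumInr.comp Primrec.encode)))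
  have hB₁ : IsOp B₁ := EP.mem (Primrec.sumInr.comp (Primrec.sumInl.comp Primrec.encode))
  have hB₂ : IsOp B₂ := EP.mem (Primrec.sumInr.comp (Primrec.sumInr.comp Primrec.encode))
  have h1 := EP_fd hA₁ hB₁
  have h2 := EP_fd hA₂ hB₂
  have h3 : EP (fun (Z : Set (ℕ ⊕ (ℕ ⊕ ℕ))) (q : Bool × (ℕ × ℕ)) =>
      (q.1 = decide (q.2.1 < q.2.2)) ∧
      ((∀ i ∈ List.range q.2.1, ∃ v, (i, v) ∈ A₁ Z ∧ (i, v) ∈ B₁ Z) ∧
        ∃ v, (q.2.1, v) ∈ A₁ Z ∧ (q.2.1, !v) ∈ B₁ Z) ∧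
      ((∀ i ∈ List.range q.2.2, ∃ v, (i, v) ∈ A₂ Z ∧ (i, v) ∈ B₂ Z) ∧
        ∃ v, (q.2.2, v) ∈ A₂ Z ∧ (q.2.2, !v) ∈ B₂ Z)) := by
    refine EP.and (EP.re (RE.eq Primrec.fst ?_)) (EP.and ?_ ?_)
    · have := (Primrec.nat_lt.decide)
      exact this.comp (Primrec.fst.comp Primrec.snd) (Primrec.snd.comp Primrec.snd)
    · exact EP.subst h1 (Primrec.fst.comp Primrec.snd)
    · exact EP.subst h2 (Primrec.snd.comp Primrec.snd)
  refine ⟨_, h3.ex, ?_⟩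
  intro x₁ x₂ y₁ y₂ hx hy
  have e1 : A₁ (sj (jn (rs x₁) (rs x₂)) (sj (rs y₁) (rs y₂))) = gr x₁ := by
    ext p
    simp only [A₁, jn, rs, mem_ofPred_eq, inl_mem_sj, encode_mem_cd]
  have e2 : A₂ (sj (jn (rs x₁) (rs x₂)) (sj (rs y₁) (rs y₂))) = gr x₂ := by
    ext p
    simp only [A₂, jn, rs, mem_ofPred_eq, inl_mem_sj, encode_mem_cd, inr_mem_sj]
  have e3 : B₁ (sj (jn (rs x₁) (rs x₂)) (sj (rs y₁) (rs y₂))) = gr y₁ := by
    ext p
    simp only [B₁, jn, rs, mem_ofPred_eq, inl_mem_sj, encode_mem_cd, inr_mem_sj]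
  have e4 : B₂ (sj (jn (rs x₁) (rs x₂)) (sj (rs y₁) (rs y₂))) = gr y₂ := by
    ext p
    simp only [B₂, jn, rs, mem_ofPred_eq, encode_mem_cd, inr_mem_sj]
  ext b
  simp only [mem_singleton_iff]
  change (∃ c : ℕ × ℕ, _) ↔ _
  simp only [e1, e2, e3, e4, fd_iff hx, fd_iff hy]
  constructor
  · rintro ⟨⟨c, d⟩, h1, h2, h3⟩
    simp only at h1 h2 h3
    rw [h1, h2, h3]
  · rintro rfl
    exact ⟨(fd x₁ y₁, fd x₂ y₂), rfl, rfl, rfl⟩

/-- evaluating a total function at a splitting length -/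
theorem eval_op : ∃ Θ : Set (ℕ ⊕ ℕ) → Set Bool, IsOp Θ ∧ ∀ φ x y : ℕ → Bool,
    x ≠ y → Θ (sj (jn (rs φ) (rs x)) (rs y)) = {φ (fd x y)} := by
  let A : Set (ℕ ⊕ ℕ) → Set (ℕ × Bool) := fun Z =>
    {p | Sum.inl (encode (Sum.inl (encode p) : ℕ ⊕ ℕ)) ∈ Z}
  let B : Set (ℕ ⊕ ℕ) → Set (ℕ × Bool) := fun Z =>
    {p | Sum.inl (encode (Sum.inr (encode p) : ℕ ⊕ ℕ)) ∈ Z}
  let C : Set (ℕ ⊕ ℕ) → Set (ℕ × Bool) := fun Z =>
    {p | (Sum.inr (encode p) : ℕ ⊕ ℕ) ∈ Z}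
  have hA : IsOp A := EP.mem (Primrec.sumInl.comp (Primrec.encode.comp
    (Primrec.sumInl.comp Primrec.encode)))
  have hB : IsOp B := EP.mem (Primrec.sumInl.comp (Primrec.encode.comp
    (Primrec.sumInr.comp Primrec.encode)))
  have hC : IsOp C := EP.mem (Primrec.sumInr.comp Primrec.encode)
  have h1 := EP_fd hB hC
  have h3 : EP (fun (Z : Set (ℕ ⊕ ℕ)) (q : Bool × ℕ) =>
      (q.2, q.1) ∈ A Z ∧
      ((∀ i ∈ List.range q.2, ∃ v, (i, v) ∈ B Z ∧ (i, v) ∈ C Z) ∧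
        ∃ v, (q.2, v) ∈ B Z ∧ (q.2, !v) ∈ C Z)) :=
    EP.and (EP.subst hA (Primrec.snd.pair Primrec.fst)) (EP.subst h1 Primrec.snd)
  refine ⟨_, h3.ex, ?_⟩
  intro φ x y hx
  have e1 : A (sj (jn (rs φ) (rs x)) (rs y)) = gr φ := by
    ext p
    simp only [A, jn, rs, mem_ofPred_eq, inl_mem_sj, encode_mem_cd]
  have e2 : B (sj (jn (rs φ) (rs x)) (rs y)) = gr x := by
    ext p
    simp only [B, jn, rs, mem_ofPred_eq, inl_mem_sj, encode_mem_cd, inr_mem_sj]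
  have e3 : C (sj (jn (rs φ) (rs x)) (rs y)) = gr y := by
    ext p
    simp only [C, rs, mem_ofPred_eq, encode_mem_cd, inr_mem_sj]
  ext b
  simp only [mem_singleton_iff]
  change (∃ c : ℕ, _) ↔ _
  simp only [e1, e2, e3, fd_iff hx]
  constructor
  · rintro ⟨c, h1, h2⟩
    rw [← h2]
    exact (show φ c = b from h1).symm
  · rintro rfl
    exact ⟨fd x y, rfl, rfl⟩

/-- ME-M3b: selection -/
theorem selection (s₁ s₀ : ℕ → ℕ) (h₁ : Tendsto s₁ atTop atTop) (h₀ : Tendsto s₀ atTop atTop) :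
    ∃ m : ℕ → ℕ, StrictMono (fun i => s₁ (m i)) ∧
      ER (gn m) (gr (fun p : ℕ × ℕ => decide (s₁ p.1 < s₀ p.2))) := by
  classical
  have ex0 : ∀ a, ∃ m', s₁ a < s₀ m' := fun a => ((h₀.eventually_gt_atTop (s₁ a))).exists
  have ex1 : ∀ m', ∃ b, s₀ m' ≤ s₁ b := fun m' => ((h₁.eventually_ge_atTop (s₀ m'))).exists
  let g : ℕ → ℕ := fun a => Nat.find (ex0 a)
  let F : ℕ → ℕ := fun a => Nat.find (ex1 (g a))
  have hF : ∀ a, s₁ a < s₁ (F a) := fun a =>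
    lt_of_lt_of_le (Nat.find_spec (ex0 a)) (Nat.find_spec (ex1 (g a)))
  refine ⟨fun i => F^[i] 0, ?_, ?_⟩
  · refine strictMono_nat_of_lt_succ ?_
    intro i
    simp only [Function.iterate_succ_apply']
    exact hF _
  · let R : Set ((ℕ × ℕ) × Bool) → ℕ × ℕ → Prop := fun X p => ∃ m',
      ((∀ q ∈ List.range m', ((p.1, q), false) ∈ X) ∧ ((p.1, m'), true) ∈ X) ∧
      ((∀ q ∈ List.range p.2, ((q, m'), true) ∈ X) ∧ ((p.2, m'), false) ∈ X)
    have hR : EP R := by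
      have h : EP (fun (X : Set ((ℕ × ℕ) × Bool)) (y : (ℕ × ℕ) × ℕ) =>
          ((∀ q ∈ List.range y.2, ((y.1.1, q), false) ∈ X) ∧ ((y.1.1, y.2), true) ∈ X) ∧
          ((∀ q ∈ List.range y.1.2, ((q, y.2), true) ∈ X) ∧ ((y.1.2, y.2), false) ∈ X)) := by
        refine EP.and (EP.and ?_ ?_) (EP.and ?_ ?_)
        · refine EP.ball (P := fun (X : Set ((ℕ × ℕ) × Bool)) (z : ((ℕ × ℕ) × ℕ) × ℕ) =>
            ((z.1.1.1, z.2), false) ∈ X) ?_ (g := fun y => List.range y.2)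
            (Primrec.list_range.comp Primrec.snd)
          exact EP.mem (((Primrec.fst.comp (Primrec.fst.comp Primrec.fst)).pair
            Primrec.snd).pair (Primrec.const false))
        · exact EP.mem (((Primrec.fst.comp Primrec.fst).pair Primrec.snd).pair
            (Primrec.const true))
        · refine EP.ball (P := fun (X : Set ((ℕ × ℕ) × Bool)) (z : ((ℕ × ℕ) × ℕ) × ℕ) =>
            ((z.2, z.1.2), true) ∈ X) ?_ (g := fun y => List.range y.1.2)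
            (Primrec.list_range.comp (Primrec.snd.comp Primrec.fst))
          exact EP.mem ((Primrec.snd.pair (Primrec.snd.comp Primrec.fst)).pair
            (Primrec.const true))
        · exact EP.mem (((Primrec.snd.comp Primrec.fst).pair Primrec.snd).pair
            (Primrec.const false))
      exact h.ex
    have hRF : ∀ a b, R (gr (fun p : ℕ × ℕ => decide (s₁ p.1 < s₀ p.2))) (a, b) ↔ F a = b := by
      intro a b
      have t1 : ∀ x y, ((x, y), true) ∈ gr (fun p : ℕ × ℕ => decide (s₁ p.1 < s₀ p.2)) ↔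
          s₁ x < s₀ y := by
        intro x y
        change decide (s₁ x < s₀ y) = true ↔ _
        simp
      have t2 : ∀ x y, ((x, y), false) ∈ gr (fun p : ℕ × ℕ => decide (s₁ p.1 < s₀ p.2)) ↔
          s₀ y ≤ s₁ x := by
        intro x y
        change decide (s₁ x < s₀ y) = false ↔ _
        simp
      simp only [R, t1, t2]
      constructor
      · rintro ⟨m', ⟨h1, h2⟩, h3, h4⟩
        have e1 : g a = m' := by
          refine (Nat.find_eq_iff _).2 ⟨h2, ?_⟩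
          intro q hq
          have := h1 q (List.mem_range.2 hq)
          omega
        refine (Nat.find_eq_iff _).2 ⟨by rw [e1]; exact h4, ?_⟩
        intro q hq
        have := h3 q (List.mem_range.2 hq)
        rw [e1]
        omega
      · rintro rfl
        refine ⟨g a, ⟨?_, Nat.find_spec (ex0 a)⟩, ?_, Nat.find_spec (ex1 (g a))⟩
        · intro q hq
          have := Nat.find_min (ex0 a) (List.mem_range.1 hq)
          omega
        · intro q hq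
          have := Nat.find_min (ex1 (g a)) (List.mem_range.1 hq)
          omega
    refine ⟨_, EP.iter86 hR 0 0, ?_⟩
    ext ⟨i, k⟩
    exact iter86_iff hRF i k

/-- ME-M3c: `kap` -/
theorem kap_le {ν : ℕ → ℕ} (h : StrictMono ν) {n i : ℕ} : kap ν n ≤ i ↔ n ≤ ν i := by
  have hne : {i | n ≤ ν i}.Nonempty := ⟨n, h.le_apply⟩
  constructor
  · intro hi
    have h1 : n ≤ ν (kap ν n) := Nat.sInf_mem hne
    exact h1.trans (h.monotone hi)
  · intro hi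
    exact Nat.sInf_le hi

theorem kap_nu {ν : ℕ → ℕ} (h : StrictMono ν) (i : ℕ) : kap ν (ν i) = i := by
  apply le_antisymm
  · exact (kap_le h).2 le_rfl
  · exact h.le_iff_le.1 ((kap_le h).1 le_rfl)

theorem kap_zero86 {ν : ℕ → ℕ} (h : StrictMono ν) : kap ν 0 = 0 :=
  Nat.le_zero.1 ((kap_le h).2 (Nat.zero_le _))

theorem kap_succ86 {ν : ℕ → ℕ} (h : StrictMono ν) (n : ℕ) :
    kap ν (n + 1) = kap ν n ∨ kap ν (n + 1) = kap ν n + 1 := by
  have h1 : kap ν n ≤ kap ν (n + 1) := by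
    rw [kap_le h]
    have := (kap_le h (n := n + 1)).1 le_rfl
    omega
  have h2 : kap ν (n + 1) ≤ kap ν n + 1 := by
    rw [kap_le h]
    have h3 := (kap_le h (n := n)).1 le_rfl
    have h4 := h (Nat.lt_succ_self (kap ν n))
    simp only [Nat.succ_eq_add_one] at h4
    omega
  omega

theorem ER_kap_par {ν : ℕ → ℕ} (h : StrictMono ν) : ER (gn (kap ν)) (gr (par ν)) := by
  classical
  let R : Set (ℕ × Bool) → (ℕ × ℕ) × (ℕ × ℕ) → Prop := fun X p =>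
    p.2.1 = p.1.1 + 1 ∧
      ((∃ v, ((p.1.1, v) ∈ X ∧ (p.1.1 + 1, v) ∈ X) ∧ p.2.2 = p.1.2) ∨
        (∃ v, ((p.1.1, v) ∈ X ∧ (p.1.1 + 1, !v) ∈ X) ∧ p.2.2 = p.1.2 + 1))
  have hR : EP R := by
    refine EP.and (EP.re (RE.eq (Primrec.fst.comp Primrec.snd)
      (Primrec.succ.comp (Primrec.fst.comp Primrec.fst)))) (EP.or ?_ ?_)
    · have h : EP (fun (X : Set (ℕ × Bool)) (y : ((ℕ × ℕ) × (ℕ × ℕ)) × Bool) =>
          ((y.1.1.1, y.2) ∈ X ∧ (y.1.1.1 + 1, y.2) ∈ X) ∧ y.1.2.2 = y.1.1.2) := by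
        refine EP.and (EP.and ?_ ?_) (EP.re (RE.eq ?_ ?_))
        · exact EP.mem ((Primrec.fst.comp (Primrec.fst.comp Primrec.fst)).pair Primrec.snd)
        · exact EP.mem ((Primrec.succ.comp (Primrec.fst.comp (Primrec.fst.comp
            Primrec.fst))).pair Primrec.snd)
        · exact Primrec.snd.comp (Primrec.snd.comp Primrec.fst)
        · exact Primrec.snd.comp (Primrec.fst.comp Primrec.fst)
      exact h.ex
    · have h : EP (fun (X : Set (ℕ × Bool)) (y : ((ℕ × ℕ) × (ℕ × ℕ)) × Bool) =>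
          ((y.1.1.1, y.2) ∈ X ∧ (y.1.1.1 + 1, !y.2) ∈ X) ∧ y.1.2.2 = y.1.1.2 + 1) := by
        refine EP.and (EP.and ?_ ?_) (EP.re (RE.eq ?_ ?_))
        · exact EP.mem ((Primrec.fst.comp (Primrec.fst.comp Primrec.fst)).pair Primrec.snd)
        · exact EP.mem ((Primrec.succ.comp (Primrec.fst.comp (Primrec.fst.comp
            Primrec.fst))).pair (Primrec.not.comp Primrec.snd))
        · exact Primrec.snd.comp (Primrec.snd.comp Primrec.fst)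
        · exact Primrec.succ.comp (Primrec.snd.comp (Primrec.fst.comp Primrec.fst))
      exact h.ex
  let F : ℕ × ℕ → ℕ × ℕ := fun p =>
    (p.1 + 1, if par ν p.1 = par ν (p.1 + 1) then p.2 else p.2 + 1)
  have hRF : ∀ a b, R (gr (par ν)) (a, b) ↔ F a = b := by
    rintro ⟨a, k⟩ ⟨b, l⟩
    change (b = a + 1 ∧ ((∃ v, (par ν a = v ∧ par ν (a + 1) = v) ∧ l = k) ∨
      (∃ v, (par ν a = v ∧ par ν (a + 1) = !v) ∧ l = k + 1))) ↔
      (a + 1, if par ν a = par ν (a + 1) then k else k + 1) = (b, l)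
    rw [Prod.mk.injEq]
    by_cases hp : par ν a = par ν (a + 1)
    · rw [if_pos hp]
      constructor
      · rintro ⟨rfl, ⟨v, _, rfl⟩ | ⟨v, ⟨h1, h2⟩, _⟩⟩
        · exact ⟨rfl, rfl⟩
        · exfalso
          rw [h1, h2] at hp
          cases v <;> simp at hp
      · rintro ⟨rfl, rfl⟩
        exact ⟨rfl, Or.inl ⟨_, ⟨rfl, hp.symm⟩, rfl⟩⟩
    · rw [if_neg hp]
      constructor
      · rintro ⟨rfl, ⟨v, ⟨h1, h2⟩, _⟩ | ⟨v, _, rfl⟩⟩
        · exact absurd (h1.trans h2.symm) hp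
        · exact ⟨rfl, rfl⟩
      · rintro ⟨rfl, rfl⟩
        refine ⟨rfl, Or.inr ⟨_, ⟨rfl, ?_⟩, rfl⟩⟩
        revert hp
        cases par ν a <;> cases par ν (a + 1) <;> simp
  have hF : ∀ n, F^[n] (0, 0) = (n, kap ν n) := by
    intro n
    induction n with
    | zero => simp [kap_zero86 h]
    | succ n ih =>
      rw [Function.iterate_succ_apply', ih]
      change (n + 1, if par ν n = par ν (n + 1) then kap ν n else kap ν n + 1) = _
      rw [Prod.mk.injEq]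
      refine ⟨rfl, ?_⟩
      unfold par
      rcases kap_succ86 h n with e | e
      · rw [e]
        simp
      · rw [e, if_neg]
        intro hd
        have := decide_eq_decide.1 hd
        omega
  have h1 := EP.iter86 hR (0, 0) (0, 0)
  have h2 := EP.subst h1 (f := fun p : ℕ × ℕ => (p.1, (p.1, p.2)))
    (Primrec.fst.pair (Primrec.fst.pair Primrec.snd))
  refine ⟨_, h2, ?_⟩
  ext ⟨n, k⟩
  refine (iter86_iff hRF n (n, k)).trans ?_
  rw [hF]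
  simp only [Prod.mk.injEq, true_and]
  rfl

theorem ER_kap_nu {ν : ℕ → ℕ} (h : StrictMono ν) : ER (gn (kap ν)) (gn ν) := by
  have h1 : EP (fun (X : Set (ℕ × ℕ)) (p : ℕ × ℕ) =>
      (∃ v, (p.2, v) ∈ X ∧ p.1 ≤ v) ∧ ∀ j ∈ List.range p.2, ∃ v, (j, v) ∈ X ∧ v < p.1) := by
    refine EP.and ?_ ?_
    · have h : EP (fun (X : Set (ℕ × ℕ)) (y : (ℕ × ℕ) × ℕ) =>
          (y.1.2, y.2) ∈ X ∧ y.1.1 ≤ y.2) :=
        EP.and (EP.mem ((Primrec.snd.comp Primrec.fst).pair Primrec.snd))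
          (EP.re (RE.prim (primrecRel_comp Primrec.nat_le (Primrec.fst.comp Primrec.fst)
            Primrec.snd)))
      exact h.ex
    · refine EP.ball (P := fun (X : Set (ℕ × ℕ)) (z : (ℕ × ℕ) × ℕ) =>
        ∃ v, (z.2, v) ∈ X ∧ v < z.1.1) ?_ (g := fun p => List.range p.2)
        (Primrec.list_range.comp Primrec.snd)
      have h : EP (fun (X : Set (ℕ × ℕ)) (y : ((ℕ × ℕ) × ℕ) × ℕ) =>
          (y.1.2, y.2) ∈ X ∧ y.2 < y.1.1.1) :=
        EP.and (EP.mem ((Primrec.snd.comp Primrec.fst).pair Primrec.snd))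
          (EP.re (RE.prim (primrecRel_comp Primrec.nat_lt Primrec.snd
            (Primrec.fst.comp (Primrec.fst.comp Primrec.fst)))))
      exact h.ex
  refine ⟨_, h1, ?_⟩
  ext ⟨n, k⟩
  change ((∃ v, ν k = v ∧ n ≤ v) ∧ ∀ j ∈ List.range k, ∃ v, ν j = v ∧ v < n) ↔ kap ν n = k
  constructor
  · rintro ⟨⟨v, rfl, h2⟩, h3⟩
    apply le_antisymm
    · exact (kap_le h).2 h2
    · by_contra hlt
      push Not at hlt
      obtain ⟨v, rfl, h4⟩ := h3 _ (List.mem_range.2 hlt)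
      have := (kap_le h (n := n)).1 le_rfl
      omega
  · rintro rfl
    refine ⟨⟨_, rfl, (kap_le h).1 le_rfl⟩, ?_⟩
    intro j hj
    refine ⟨_, rfl, ?_⟩
    by_contra hlt
    push Not at hlt
    have := (kap_le h).2 hlt
    have := List.mem_range.1 hj
    omega

/-- composition of total functions -/
theorem ER_comp {X : Set ℕ} {g k : ℕ → ℕ} (hg : ER (gn g) X) (hk : ER (gn k) X) :
    ER (gn (fun n => g (k n))) X := by
  obtain ⟨Φ, hΦ, hg⟩ := hg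
  obtain ⟨Ψ, hΨ, hk⟩ := hk
  have h : EP (fun (X : Set ℕ) (y : (ℕ × ℕ) × ℕ) => (y.1.1, y.2) ∈ Ψ X ∧ (y.2, y.1.2) ∈ Φ X) :=
    EP.and (EP.subst hΨ ((Primrec.fst.comp Primrec.fst).pair Primrec.snd))
      (EP.subst hΦ (Primrec.snd.pair (Primrec.snd.comp Primrec.fst)))
  refine ⟨_, h.ex, ?_⟩
  ext ⟨n, k'⟩
  change (∃ c, (n, c) ∈ Ψ X ∧ (c, k') ∈ Φ X) ↔ g (k n) = k'
  rw [hg, hk]
  constructor
  · rintro ⟨c, h1, h2⟩
    rw [show k n = c from h1]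
    exact h2
  · intro h1
    exact ⟨k n, rfl, h1⟩

theorem ER_comp_gr {X : Set ℕ} {g : ℕ → Bool} {k : ℕ → ℕ} (hg : ER (rs g) X)
    (hk : ER (gn k) X) : ER (rs (fun n => g (k n))) X := by
  obtain ⟨Φ, hΦ, hg⟩ := ER_cd_left.1 hg
  obtain ⟨Ψ, hΨ, hk⟩ := hk
  have h : EP (fun (X : Set ℕ) (y : (ℕ × Bool) × ℕ) => (y.1.1, y.2) ∈ Ψ X ∧
      (y.2, y.1.2) ∈ Φ X) :=
    EP.and (EP.subst hΨ ((Primrec.fst.comp Primrec.fst).pair Primrec.snd))
      (EP.subst hΦ (Primrec.snd.pair (Primrec.snd.comp Primrec.fst)))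
  refine ER_cd_left.2 ⟨_, h.ex, ?_⟩
  ext ⟨n, k'⟩
  change (∃ c, (n, c) ∈ Ψ X ∧ (c, k') ∈ Φ X) ↔ g (k n) = k'
  rw [hg, hk]
  constructor
  · rintro ⟨c, h1, h2⟩
    rw [show k n = c from h1]
    exact h2
  · intro h1
    exact ⟨k n, rfl, h1⟩

theorem ER_lt_table {X : Set ℕ} {g k : ℕ → ℕ} (hg : ER (gn g) X) (hk : ER (gn k) X) :
    ER (gr (fun p : ℕ × ℕ => decide (g p.1 < k p.2))) X := by
  obtain ⟨Φ, hΦ, hg⟩ := hg
  obtain ⟨Ψ, hΨ, hk⟩ := hk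
  have h : EP (fun (X : Set ℕ) (y : ((ℕ × ℕ) × Bool) × (ℕ × ℕ)) =>
      ((y.1.1.1, y.2.1) ∈ Φ X ∧ (y.1.1.2, y.2.2) ∈ Ψ X) ∧ y.1.2 = decide (y.2.1 < y.2.2)) := by
    refine EP.and (EP.and ?_ ?_) (EP.re (RE.eq ?_ ?_))
    · exact EP.subst hΦ ((Primrec.fst.comp (Primrec.fst.comp Primrec.fst)).pair
        (Primrec.fst.comp Primrec.snd))
    · exact EP.subst hΨ ((Primrec.snd.comp (Primrec.fst.comp Primrec.fst)).pair
        (Primrec.snd.comp Primrec.snd))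
    · exact Primrec.snd.comp Primrec.fst
    · exact Primrec.nat_lt.decide.comp (Primrec.fst.comp Primrec.snd)
        (Primrec.snd.comp Primrec.snd)
  refine ⟨_, h.ex, ?_⟩
  ext ⟨⟨a, b⟩, v⟩
  change (∃ c : ℕ × ℕ, ((a, c.1) ∈ Φ X ∧ (b, c.2) ∈ Ψ X) ∧ v = decide (c.1 < c.2)) ↔
    decide (g a < k b) = v
  rw [hg, hk]
  constructor
  · rintro ⟨⟨c, d⟩, ⟨h1, h2⟩, h3⟩
    rw [h3, show g a = c from h1, show k b = d from h2]
  · intro h1
    exact ⟨(g a, k b), ⟨rfl, rfl⟩, h1.symm⟩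

end ME
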